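import Mathlib
import Pool.Agent.Lib.MP_13b08e_lc.TW.Path

/-!
Rational points of elliptopes of graphs of bounded pathwidth which have rational completions, and all
of whose positive semidefinite completions have an entry of exponential bit length.
-/

namespace Pool.Agent.Results.MP_13b08e_lc.ExponentialSize

open Pool.Agent.Lib.MP_13b08e_lc

/-- For every `k` there are a graph on `16 k + 8` vertices of pathwidth and treewidth at most eleven
and a rational point `x` of its elliptope with coordinates in a fixed set of seven rational numbers,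
such that `x` has a rational positive semidefinite completion, and a certain entry of all positive
semidefinite completions of `x` is one and the same rational number, whose denominator is
`5 ^ (2 ^ k + 2)`. -/
theorem result (k : ℕ) : ∃ (V : Type) (_ : Fintype V) (G : SimpleGraph V) (x : G.edgeSet → ℚ)
    (a b : V) (q : ℚ), Fintype.card V = 16 * k + 8 ∧ PathwidthLE G 11 ∧ RC.TreewidthLE G 11 ∧
      (∀ e, x e ∈ ({0, 3 / 5, 4 / 5, -4 / 5, 27 / 125, 36 / 125, -36 / 125} : Set ℚ)) ∧
      (∃ Y : Matrix V V ℚ, IsCompletion G x (Y.map fun r => (r : ℝ))) ∧ q.den = 5 ^ (2 ^ k + 2) ∧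
      ∀ X : Matrix V V ℝ, IsCompletion G x X → X a b = q := by
  obtain ⟨Y, hY⟩ := Doubling.rat_completion k
  refine ⟨Doubling.Vert k, inferInstance, Doubling.T k, Doubling.xT k,
    .U (.p (Fin.last k)), .U .e1, Doubling.q k, Doubling.card_Vert k, Doubling.pathwidth_T,
    Doubling.treewidth_T, ?_, ⟨Y, Doubling.isCompletion_T hY⟩, Doubling.q_den k,
    fun X hX => Doubling.forcedT hX⟩
  rintro ⟨e, he⟩
  induction e using Sym2.ind with
  | _ u v =>
    rw [SimpleGraph.mem_edgeSet] at he
    rw [Doubling.xT_apply u v he, Doubling.dat]
    have h0 := he.1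
    unfold Doubling.graph at h0
    rw [SimpleGraph.fromRel_adj] at h0
    obtain ⟨-, h1 | h1⟩ := h0
    · obtain ⟨a, ha⟩ := Option.isSome_iff_exists.1 h1
      rw [Doubling.dir_other u v a ha, ha, Option.getD_some, add_zero]
      exact Doubling.dir_mem u v a ha
    · obtain ⟨a, ha⟩ := Option.isSome_iff_exists.1 h1
      rw [Doubling.dir_other v u a ha, ha, Option.getD_some, zero_add]
      exact Doubling.dir_mem v u a ha

end Pool.Agent.Results.MP_13b08e_lc.ExponentialSize
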