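import Mathlib
import Pool.Agent.Lib.MP_13b08e_lc.RC.Fill

/-!
Rational positive semidefinite completions: the exact threshold in the number of edges which have to be
added to make the graph chordal.
-/

namespace Pool.Agent.Results.MP_13b08e_lc.IrrationalFillInTwo

open Pool.Agent.Lib.MP_13b08e_lc Pool.Agent.Lib.MP_13b08e_lc.RC

/-- All finite graphs which become chordal after adding at most `k` edges have rational completions
(in each of the two senses) if and only if `k ≤ 1`.  There are a graph `G` with six vertices and eight
edges which becomes chordal after adding two edges, and a rational point `x` of the elliptope of `G`,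
such that a certain entry is irrational in every positive semidefinite completion of `x`. -/
theorem result :
    (∀ k : ℕ,
      ((∀ (V : Type) [Finite V] (G : SimpleGraph V), FillLE G k → RationalCompletions G) ↔
        k ≤ 1) ∧
      ((∀ (V : Type) [Finite V] (G : SimpleGraph V), FillLE G k → RationalElliptope G) ↔
        k ≤ 1)) ∧
    ∃ (V : Type) (_ : Fintype V) (G : SimpleGraph V) (x : G.edgeSet → ℚ) (i j : V),
      Fintype.card V = 6 ∧ Nat.card G.edgeSet = 8 ∧ FillLE G 2 ∧ InElliptope G x ∧
        ∀ X : Matrix V V ℝ, IsCompletion G x X → Irrational (X i j) := by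
  refine ⟨threshold_fill, Fin 3 ⊕ Fin 3, inferInstance, K33f.G, K33f.x, Sum.inr 0, Sum.inr 1,
    by simp, ?_, K33f.fill_le, ⟨K33f.X, K33f.completion⟩, fun _ hX => K33f.irrational_entry hX⟩
  have h1 := Edges.card_K33f
  by_contra h2
  exact not_rationalElliptope_K33f (((Edges.threshold_edges 7).2.2 le_rfl) _ _ (by omega))

end Pool.Agent.Results.MP_13b08e_lc.IrrationalFillInTwo
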