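import Pool.Agent.Lib.MP_13b08e_lc.UV.Final

/-!
# SDP feasibility, elliptope membership, elliptope membership of a constant vector, and the Lovász theta function

For every rational number `c` with `-1 < c < 0`, SDP feasibility and membership of the constant vector `c` in the elliptope of the
input graph reduce to each other by polynomial time many-one reductions; for every other rational `c` the membership of the constant
vector is decidable in polynomial time. For every rational `τ > 2`, SDP feasibility and the problems whether the theta function of
the complement of the input graph is at most `τ`, whether the graph is strictly vector `τ`-colourable, and whether it is vector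
`τ`-colourable, reduce to each other; for every rational `τ ≤ 2` it is decidable in polynomial time whether theta is at most `τ`.
-/

set_option autoImplicit false

namespace Pool.Agent.Results.MP_13b08e_lc.LovaszTheta

open Pool.Agent.Lib.MP_13b08e_lc Pool.Agent.Lib.MP_13b08e_lc.UV Pool.Agent.Lib.PolyTime

theorem result :
    SdpEquivalent Ell.Member ∧
    (∀ c : ℚ, -1 < c → c < 0 → SdpEquivalent (fun I : Gph => InElliptope I.G fun _ => c)) ∧
    (∀ c : ℚ, c ≤ -1 ∨ 0 ≤ c → InP (fun I : Gph => InElliptope I.G fun _ => c)) ∧
    (∀ τ : ℚ, 2 < τ → SdpEquivalent (fun I : Gph => theta I.Gᶜ ≤ τ) ∧ SdpEquivalent (fun I : Gph => StrictVecCol τ I.G) ∧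
      SdpEquivalent (fun I : Gph => VecCol τ I.G)) ∧
    (∀ τ : ℚ, τ ≤ 2 → InP (fun I : Gph => theta I.Gᶜ ≤ τ)) :=
  ⟨eqv_ell, fun _ h1 h2 => eqv_const h1 h2, fun _ h => inP_const h, fun _ h => ⟨eqv_theta h, eqv_strict h, eqv_vec h⟩,
    fun _ h => inP_theta h⟩

end Pool.Agent.Results.MP_13b08e_lc.LovaszTheta
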