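import Mathlib
import Pool.Agent.Lib.MP_13b08e_lc.RC.Edges

/-!
Rational positive semidefinite completions: exact thresholds in the treewidth, in the number of
vertices and in the number of edges of the pattern.
-/

namespace Pool.Agent.Results.MP_13b08e_lc.RationalCompletions

open Pool.Agent.Lib.MP_13b08e_lc Pool.Agent.Lib.MP_13b08e_lc.RC

/-- **Rational completions.**

* Every rational partial matrix whose pattern is a graph of the class `Tame` and which has a real
  positive semidefinite completion has a rational one; every rational point of the elliptope of such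
  a graph has a rational completion.
* All graphs of treewidth at most `k` have each of these two properties if and only if `k ≤ 2`, all
  graphs on at most `k` vertices have each of them if and only if `k ≤ 5`, and all graphs with at most
  `k` edges have each of them if and only if `k ≤ 7`.
* Both properties fail for every graph with induced minor `K_{3,3}` or `K_{3,3}` minus an edge.
* Both of these graphs have treewidth at most three and a rational point of their elliptope for which
  one and the same entry is irrational in all completions. -/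
theorem result :
    (∀ (V : Type) [Finite V] (G : SimpleGraph V), Tame G →
      RationalCompletions G ∧ RationalElliptope G) ∧
    (∀ k : ℕ,
      ((∀ (V : Type) [Finite V] (G : SimpleGraph V), TreewidthLE G k → RationalCompletions G) ↔
        k ≤ 2) ∧
      ((∀ (V : Type) [Finite V] (G : SimpleGraph V), TreewidthLE G k → RationalElliptope G) ↔
        k ≤ 2) ∧
      ((∀ (V : Type) [Finite V] (G : SimpleGraph V), Nat.card V ≤ k → RationalCompletions G) ↔
        k ≤ 5) ∧
      ((∀ (V : Type) [Finite V] (G : SimpleGraph V), Nat.card V ≤ k → RationalElliptope G) ↔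
        k ≤ 5) ∧
      ((∀ (V : Type) [Finite V] (G : SimpleGraph V), Nat.card G.edgeSet ≤ k →
        RationalCompletions G) ↔ k ≤ 7) ∧
      ((∀ (V : Type) [Finite V] (G : SimpleGraph V), Nat.card G.edgeSet ≤ k →
        RationalElliptope G) ↔ k ≤ 7)) ∧
    (∀ (V : Type) [Finite V] (G : SimpleGraph V),
      InducedMinor (completeBipartiteGraph (Fin 3) (Fin 3)) G ∨
        InducedMinor ((completeBipartiteGraph (Fin 3) (Fin 3)).deleteEdges
          {s(Sum.inl 2, Sum.inr 2)}) G →
        ¬ RationalCompletions G ∧ ¬ RationalElliptope G) ∧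
    (TreewidthLE (completeBipartiteGraph (Fin 3) (Fin 3)) 3 ∧
      ∃ x : (completeBipartiteGraph (Fin 3) (Fin 3)).edgeSet → ℚ, InElliptope _ x ∧
        ∀ X : Matrix (Fin 3 ⊕ Fin 3) (Fin 3 ⊕ Fin 3) ℝ,
          IsCompletion _ x X → Irrational (X (Sum.inl 0) (Sum.inl 1))) ∧
    (TreewidthLE ((completeBipartiteGraph (Fin 3) (Fin 3)).deleteEdges
        {s(Sum.inl 2, Sum.inr 2)}) 3 ∧
      ∃ x : ((completeBipartiteGraph (Fin 3) (Fin 3)).deleteEdges
          {s(Sum.inl 2, Sum.inr 2)}).edgeSet → ℚ, InElliptope _ x ∧
        ∀ X : Matrix (Fin 3 ⊕ Fin 3) (Fin 3 ⊕ Fin 3) ℝ,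
          IsCompletion _ x X → Irrational (X (Sum.inr 0) (Sum.inr 1))) :=
  ⟨fun _ hV _ hG => ⟨rationalCompletions_of_ratCompl (hG.ratCompl hV),
      rationalElliptope_of_ratCompl (hG.ratCompl hV)⟩,
    fun k => ⟨(threshold k).1, (threshold k).2, (threshold_card k).1, (threshold_card k).2,
      (Edges.threshold_edges k).1, (Edges.threshold_edges k).2⟩,
    fun _ _ G h => h.elim (not_of_minor G) (not_of_minor_edge' G),
    ⟨treewidth_K33, K33.x, ⟨K33.X, K33.completion⟩, fun _ hX => K33.irrational_entry hX⟩,
    ⟨Edges.treewidth_K33f, K33f.x, ⟨K33f.X, K33f.completion⟩,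
      fun _ hX => K33f.irrational_entry hX⟩⟩

end Pool.Agent.Results.MP_13b08e_lc.RationalCompletions
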